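import Pool.Agent.X276.LexChain

/-!
# Residue fields can generate when the spectrum is not weakly noetherian

Let `V` be a valuation domain with prime ideals `0 = p_0 ⊂ p_1 ⊂ p_2 ⊂ ⋯ ⊂ m = ⋃ p_n` whose value
group is `ℤ ^ (ℕ)` with the lexicographic order (Hahn series with exponents in this group). The
localizations `V_{p_n}` are in the localizing subcategory generated by the residue fields by
induction on `n`, since `V_{p_{n+1}}[1/x] = V_{p_n}` and `V_{p_{n+1}} / x = κ(p_{n+1})` for a suitable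
`x`. Hence so are the ideals `p_n`, their union `m`, and `V`. But the closed point `m` of `Spec V` is
not weakly visible.
-/

set_option autoImplicit false
set_option linter.all false

open CategoryTheory Pool.Agent.X276.Derived

namespace Pool.Agent.Results.MP_e7c909_al.NotWeaklyNoetherian

/-- The condition `(∗)`: `R` is in every localizing subcategory of `D(R)` which contains the residue
fields `κ(p)` of all prime ideals `p`. -/
def ResidueGenerated (R : Type) [CommRing R] : Prop :=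
  letI := HasDerivedCategory.standard (ModuleCat.{0} R)
  ∀ P : ObjectProperty (DerivedCategory (ModuleCat.{0} R)), IsLocalizing R P →
    (∀ (p : Ideal R) [p.IsPrime], P (sing (R := R) p.ResidueField)) → P (sing (R := R) R)

/-- Thomason subsets: unions of closed subsets with quasi-compact complement. -/
def IsThomason {X : Type} [TopologicalSpace X] (Y : Set X) : Prop :=
  ∃ Z : Set (Set X), (∀ z ∈ Z, IsClosed z ∧ IsCompact zᶜ) ∧ Y = ⋃₀ Z

/-- Weakly visible points. -/
def WeaklyVisible {X : Type} [TopologicalSpace X] (x : X) : Prop :=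
  ∃ Y₁ Y₂ : Set X, IsThomason Y₁ ∧ IsThomason Y₂ ∧ {x} = Y₁ ∩ Y₂ᶜ

/-- Weakly noetherian spaces. -/
def WeaklyNoetherian (X : Type) [TopologicalSpace X] : Prop :=
  ∀ x : X, WeaklyVisible x

theorem residueGenerated_V : ResidueGenerated (V GG) := by
  letI := HasDerivedCategory.standard (ModuleCat.{0} (V GG))
  intro P hP hres
  exact T_V chain hP hres

/-- the primes -/
noncomputable def pr (n : ℕ) : PrimeSpectrum (V GG) := ⟨pp (HH n), pp_prime (HH n) (chain.conv n)⟩

theorem bot_conv : ∀ a b : GG, 0 ≤ a → a ≤ b → b ∈ (⊥ : AddSubgroup GG) →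
    a ∈ (⊥ : AddSubgroup GG) := by
  intro a b ha hab hb
  rw [AddSubgroup.mem_bot] at hb ⊢
  exact le_antisymm (hab.trans hb.le) ha

/-- the closed point -/
noncomputable def mx : PrimeSpectrum (V GG) := ⟨pp ⊥, pp_prime ⊥ bot_conv⟩

theorem pr_mono : Monotone fun n => (pr n).asIdeal := by
  apply monotone_nat_of_le_succ
  intro n a ha h0 h hh
  exact ha h0 h (chain.H_succ_le n hh)

theorem pr_le (n : ℕ) : (pr n).asIdeal ≤ mx.asIdeal := by
  intro a ha h0 h hh
  rw [AddSubgroup.mem_bot] at hh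
  rw [hh]
  exact ha h0 0 (zero_mem _)

theorem pr_ne (n : ℕ) : pr n ≠ mx := by
  intro h
  have hV : (xx chain n : K GG) ∈ V GG := fun _ => by
    rw [xx_order]
    exact (chain.e_pos n).le
  have h1 : (⟨xx chain n, hV⟩ : V GG) ∈ mx.asIdeal := by
    intro _ h hh
    rw [AddSubgroup.mem_bot] at hh
    rw [hh]
    change 0 < (xx chain n).order
    rw [xx_order]
    exact chain.e_pos n
  rw [← h] at h1
  have h2 := h1 (xx_ne chain n) (chain.e n) (chain.e_mem n)
  have h3 : chain.e n < (xx chain n).order := h2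
  rw [xx_order] at h3
  exact lt_irrefl _ h3

theorem mem_pr {a : V GG} (ha : a ∈ mx.asIdeal) : ∃ n, a ∈ (pr n).asIdeal := by
  by_cases h0 : (a : K GG) = 0
  · exact ⟨0, fun h => absurd h0 h⟩
  · obtain ⟨n, hn⟩ := chain.inter (a : K GG).order (ha h0 0 (zero_mem _))
    exact ⟨n, fun _ => hn⟩

theorem finset_mem_pr (t : Finset (V GG)) (ht : (t : Set (V GG)) ⊆ mx.asIdeal) :
    ∃ n, (t : Set (V GG)) ⊆ (pr n).asIdeal := by
  classical
  induction t using Finset.induction_on with
  | empty => exact ⟨0, by simp⟩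
  | insert a t _ ih =>
    rw [Finset.coe_insert, Set.insert_subset_iff] at ht
    obtain ⟨n, hn⟩ := ih ht.2
    obtain ⟨m, hm⟩ := mem_pr ht.1
    refine ⟨max m n, ?_⟩
    rw [Finset.coe_insert, Set.insert_subset_iff]
    exact ⟨pr_mono (le_max_left m n) hm, hn.trans (pr_mono (le_max_right m n))⟩

theorem not_visible : ¬ WeaklyVisible mx := by
  rintro ⟨Y₁, Y₂, ⟨Z₁, hZ₁, rfl⟩, ⟨Z₂, hZ₂, rfl⟩, h⟩
  have hm : mx ∈ ⋃₀ Z₁ ∩ (⋃₀ Z₂)ᶜ := by
    rw [← h]; rfl
  obtain ⟨⟨z, hz, hmz⟩, hm2⟩ := hm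
  obtain ⟨hzc, hzk⟩ := hZ₁ z hz
  obtain ⟨t, ht⟩ := PrimeSpectrum.isCompact_isOpen_iff.1 ⟨hzk, hzc.isOpen_compl⟩
  have hz2 : z = PrimeSpectrum.zeroLocus (t : Set (V GG)) := (compl_injective ht).symm
  have htm : (t : Set (V GG)) ⊆ mx.asIdeal := by
    rw [hz2] at hmz
    exact hmz
  obtain ⟨n, hn⟩ := finset_mem_pr t htm
  have h1 : pr n ∈ z := by
    rw [hz2]
    exact hn
  have h2 : pr n ∉ ⋃₀ Z₂ := by
    rintro ⟨z', hz', hnz'⟩
    apply hm2
    refine ⟨z', hz', ?_⟩
    have h3 : pr n ⤳ mx := (PrimeSpectrum.le_iff_specializes _ _).1 (pr_le n)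
    exact h3.mem_closed (hZ₂ z' hz').1 hnz'
  have h4 : pr n ∈ ({mx} : Set (PrimeSpectrum (V GG))) := by
    rw [h]
    exact ⟨⟨z, hz, h1⟩, h2⟩
  exact pr_ne n h4

/-- There is a commutative ring `R` satisfying `(∗)` such that `Spec R` is not weakly
noetherian. -/
theorem result : ∃ (R : Type) (_ : CommRing R),
    ResidueGenerated R ∧ ¬ WeaklyNoetherian (PrimeSpectrum R) :=
  ⟨V GG, inferInstance, residueGenerated_V, fun h => not_visible (h mx)⟩

end Pool.Agent.Results.MP_e7c909_al.NotWeaklyNoetherian
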